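import Pool.Agent.H25.Coins2

namespace Pool.Agent.Results.MP_712a2d_co.Placement

open Finset Pool.Agent.H25.Coins

/-- an `(n,c)`-placement: `n c` cells of the `n × n` board, at most `c` on every row, column and diagonal -/
def IsPlacement (n c : ℕ) (S : Finset (Fin n × Fin n)) : Prop :=
  S.card = n * c ∧ (∀ a, (S.filter fun x => x.1 = a).card ≤ c) ∧ (∀ b, (S.filter fun x => x.2 = b).card ≤ c) ∧
  (∀ k : ℕ, (S.filter fun x => x.1.val + x.2.val = k).card ≤ c) ∧
  (∀ d : ℤ, (S.filter fun x => (x.1.val : ℤ) - x.2.val = d).card ≤ c)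

theorem result (n c : ℕ) (hn : 4 ≤ n) (hc : c ≤ n) : ∃ S, IsPlacement n c S := by
  obtain ⟨S, h⟩ := all n c hn hc
  let e : Fin n × Fin n → ℕ × ℕ := fun x => (x.1.val, x.2.val)
  have he : Function.Injective e := fun x y t => by
    simp only [e, Prod.mk.injEq] at t; exact Prod.ext (Fin.ext t.1) (Fin.ext t.2)
  have key : ∀ (P : Fin n × Fin n → Prop) (Q : ℕ × ℕ → Prop) [DecidablePred P] [DecidablePred Q],
      (∀ x, P x ↔ Q (e x)) → ((univ.filter fun x => e x ∈ S).filter P).card = (S.filter Q).card := by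
    intro P Q _ _ hPQ
    rw [← card_image_of_injective _ he]
    congr 1
    ext y
    simp only [mem_image, mem_filter, mem_univ, true_and]
    exact ⟨fun ⟨x, ⟨h1, h2⟩, h3⟩ => h3 ▸ ⟨h1, (hPQ x).1 h2⟩,
      fun ⟨h1, h2⟩ => ⟨(⟨y.1, (h.sub y h1).1⟩, ⟨y.2, (h.sub y h1).2⟩), ⟨h1, (hPQ _).2 h2⟩, rfl⟩⟩
  have hrow : ∀ a : Fin n, ((univ.filter fun x => e x ∈ S).filter fun x => x.1 = a).card = c := fun a => by
    rw [key _ (fun x => x.1 = a.val) fun x => Fin.ext_iff, h.row a a.2]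
  refine ⟨univ.filter fun x => e x ∈ S, ?_, fun a => (hrow a).le, fun b => ?_, fun k => ?_, fun d => ?_⟩
  · rw [card_eq_sum_card_fiberwise (f := Prod.fst) (t := univ) (fun _ _ => mem_coe.2 (mem_univ _)),
      sum_congr rfl fun a _ => hrow a]
    simp
  · rw [key _ (fun x => x.2 = b.val) fun x => Fin.ext_iff]; exact h.col b
  · rw [key _ (fun x => x.1 + x.2 = k) fun x => Iff.rfl]; exact h.sum k
  · rw [key _ (fun x => (x.1 : ℤ) - x.2 = d) fun x => Iff.rfl]
    exact (card_le_card fun x hx => mem_filter.2 ⟨(mem_filter.1 hx).1, by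
      have := (mem_filter.1 hx).2; have := h.sub x (mem_filter.1 hx).1; omega⟩).trans (h.dif (d + n).toNat)

end Pool.Agent.Results.MP_712a2d_co.Placement
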